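import Pool.Agent.Lib.MP_1a91b9_ntM.Q.Main
import Pool.Agent.Lib.MP_1a91b9_ntM.R.Dsj
import Pool.Agent.Lib.MP_1a91b9_ntM.F3
import Pool.Agent.Lib.MP_1a91b9_ntM.F.Bad5

/-!
# MQ: the final theorem
-/

set_option autoImplicit false

namespace Pool.Agent.Lib.MP_1a91b9_ntM

open NumberField IsDedekindDomain Finset WeierstrassCurve Pool.Agent.Lib.MP_1a91b9_ntQ

noncomputable section

theorem bad_two : BadTwo := fun _ _ _ _ _ h _ hd _ hw => bad_lam h hd hw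

/-- **The rank part over every multiquadratic extension.** -/
theorem main_mq (F : Type) [Field F] [NumberField F] [Algebra K4 F]
    (hF : IntermediateField.adjoin K4 {x : F | ∃ c : K4, x ^ 2 = algebraMap K4 F c} = ⊤)
    {n : ℕ} {m u : 𝓞 K4} (hm : m ∣ 2 ^ n) (hu : ¬ ((2 : 𝓞 K4) ∣ m ∧ (2 : 𝓞 K4) ∣ u))
    (ε : ℝ) (hε : 0 < ε) :
    ∀ᶠ X : ℝ in Filter.atTop,
      (∏' i : ℕ, (1 + 1 / (2 : ℝ) ^ (i + 1))⁻¹) ^ Module.finrank K4 F - ε ≤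
      (Nat.card {d : 𝓞 K4 // Squarefree d ∧ m ∣ d - u ∧ |Algebra.norm ℤ d| ≤ X ∧
        ∀ W : WeierstrassCurve F, W = ⟨0, 0, 0, -(algebraMap K4 F (d : K4)) ^ 2, 0⟩ →
          (∃ g : ℂ → ℂ, Differentiable ℂ g ∧ (∀ s : ℂ, 3 / 2 < s.re → g s = W.LSeries s) ∧
            g 1 ≠ 0) ∧ Finite W.toAffine.Point} : ℝ) /
        (Nat.card {d : 𝓞 K4 // Squarefree d ∧ m ∣ d - u ∧ |Algebra.norm ℤ d| ≤ X} : ℝ) :=
  main_of dsj (chainHyp bad_two) F hF hm hu ε hε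

end

end Pool.Agent.Lib.MP_1a91b9_ntM
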