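import Pool.Agent.Lib.MP_1a91b9_ntM.R.Den
import Pool.Agent.Lib.MP_1a91b9_ntM.Chain
import Pool.Agent.Lib.MP_1a91b9_nuX.LG.Iso

/-!
# MQ, part Q: the rank part of the conjecture of Birch and Swinnerton-Dyer for `y² = x³ - d² x` over
all the multiquadratic extensions of `ℚ(i)`: assembly
-/

set_option autoImplicit false

namespace Pool.Agent.Lib.MP_1a91b9_ntM

open NumberField IsDedekindDomain Finset WeierstrassCurve Pool.Agent.Lib.MP_1a91b9_ntQ
  Pool.Agent.Lib.MP_1a91b9_nt Pool.Agent.Lib.MP_1a91b9_nuT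
open Pool.Agent.Lib.MP_1a91b9_nuX.LG (LConcl JI locPoly_iso)
open Den4 (ph)

noncomputable section

/-- The L-series is determined by the local polynomials. -/
theorem LSer_congr {N : Type*} [Field N] [NumberField N] {W W' : WeierstrassCurve N}
    (h : ∀ v : HeightOneSpectrum (𝓞 N), locPoly W v = locPoly W' v) : W.LSeries = W'.LSeries := by
  have h1 : W.LFunction = W'.LFunction := by
    unfold WeierstrassCurve.LFunction
    congr 1
    funext v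
    have h2 := h v
    unfold locPoly at h2
    unfold WeierstrassCurve.localEulerFactor WeierstrassCurve.localPowerSeries
    rw [h2]
  funext s
  unfold WeierstrassCurve.LSeries
  rw [h1]

theorem Wd_ji (d : 𝓞 K4) (v : HeightOneSpectrum (𝓞 K4)) : JI (Wd K4 d) v := by
  have h1 : (Wd K4 d).c₄ ^ 3 = algebraMap (𝓞 K4) K4 1728 * (Wd K4 d).Δ := by
    rw [map_ofNat]
    unfold Wd WeierstrassCurve.c₄ WeierstrassCurve.Δ WeierstrassCurve.b₂ WeierstrassCurve.b₄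
      WeierstrassCurve.b₆ WeierstrassCurve.b₈
    ring
  unfold JI
  rw [h1, map_mul]
  exact mul_le_of_le_one_left' (v.valuation_le_one _)

theorem Wd_iso {δ t : 𝓞 K4} (ht : t ≠ 0) :
    ∃ C : VariableChange K4, C • Wd K4 (δ * t ^ 2) = Wd K4 δ := by
  have ht0 : (t : K4) ≠ 0 := by exact_mod_cast ht
  refine ⟨⟨Units.mk0 (t : K4) ht0, 0, 0, 0⟩, ?_⟩
  have e : ((δ * t ^ 2 : 𝓞 K4) : K4) = (δ : K4) * (t : K4) ^ 2 := by
    push_cast
    rfl
  rw [Wd_K4, Wd_K4, e]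
  ext
  · simp [variableChange_a₁]
  · simp [variableChange_a₂]
  · simp [variableChange_a₃]
  · simp only [variableChange_a₄, Units.val_inv_eq_inv_val, Units.val_mk0]
    field_simp
    ring
  · simp [variableChange_a₆]

theorem Wd_sq {δ t : 𝓞 K4} (ht : t ≠ 0) (h1 : LConcl (Wd K4 δ))
    (h2 : Finite (Wd K4 δ).toAffine.Point) :
    LConcl (Wd K4 (δ * t ^ 2)) ∧ Finite (Wd K4 (δ * t ^ 2)).toAffine.Point := by
  obtain ⟨C, hC⟩ := Wd_iso (δ := δ) ht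
  refine ⟨?_, ?_⟩
  · obtain ⟨g, hg, hg1, hg2⟩ := h1
    refine ⟨g, hg, fun s hs => ?_, hg2⟩
    rw [hg1 s hs, LSer_congr fun v => locPoly_iso hC v (Wd_ji δ v)]
  · rw [← hC] at h2
    exact Finite.of_surjective _ (vcFun_bijective (Wd K4 (δ * t ^ 2)) C).2

/-- **All the twists.** -/
theorem Wd_good {a d : 𝓞 K4} (h : ∃ (k : ZMod 4) (j : Fin 2) (S : Finset Pg) (t : 𝓞 K4),
    t ≠ 0 ∧ a * d = ph k j (DDq S) * t ^ 2 ∧ Gd5 k j S) :
    LConcl (Wd K4 (a * d)) ∧ Finite (Wd K4 (a * d)).toAffine.Point := by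
  obtain ⟨k, j, S, t, ht, h1, hG⟩ := h
  rw [h1]
  refine Wd_sq ht ?_ ?_
  · obtain ⟨g, g1, g2, g3⟩ := ls5 hG
    rw [WD4_sq] at g2
    exact ⟨g, g1, g2, g3⟩
  · exact (C.pts5_all k j S hG rfl (W := Wd K4 (ph k j (DDq S))) rfl).1

/-- **The rank part over a multiquadratic extension.** -/
theorem main_of (hJ : DSJ) (H : ChainHyp) (F : Type) [Field F] [NumberField F] [Algebra K4 F]
    (hF : IntermediateField.adjoin K4 {x : F | ∃ c : K4, x ^ 2 = algebraMap K4 F c} = ⊤)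
    {n : ℕ} {m u : 𝓞 K4} (hm : m ∣ 2 ^ n) (hu : ¬ ((2 : 𝓞 K4) ∣ m ∧ (2 : 𝓞 K4) ∣ u))
    (ε : ℝ) (hε : 0 < ε) :
    ∀ᶠ X : ℝ in Filter.atTop,
      (∏' i : ℕ, (1 + 1 / (2 : ℝ) ^ (i + 1))⁻¹) ^ Module.finrank K4 F - ε ≤
      (Nat.card {d : 𝓞 K4 // Squarefree d ∧ m ∣ d - u ∧ |Algebra.norm ℤ d| ≤ X ∧
        ∀ W : WeierstrassCurve F, W = ⟨0, 0, 0, -(algebraMap K4 F (d : K4)) ^ 2, 0⟩ →
          (∃ g : ℂ → ℂ, Differentiable ℂ g ∧ (∀ s : ℂ, 3 / 2 < s.re → g s = W.LSeries s) ∧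
            g 1 ≠ 0) ∧ Finite W.toAffine.Point} : ℝ) /
        (Nat.card {d : 𝓞 K4 // Squarefree d ∧ m ∣ d - u ∧ |Algebra.norm ℤ d| ≤ X} : ℝ) := by
  obtain ⟨A, hA⟩ := MQT.exists_of hF
  have hok := hA.ok
  rw [← hok.len]
  refine den_all hJ ?_ hok.ne hok.pw hm hu _ (fun d hd h => ?_) ε hε
  · rintro rfl
    have h1 := hok.len
    rw [List.length_nil] at h1
    exact absurd h1.symm (Module.finrank_pos (R := K4) (M := F)).ne'
  · rintro W rfl
    exact chain H hA d hd.ne_zero fun b hb => Wd_good (h b hb)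

end

end Pool.Agent.Lib.MP_1a91b9_ntM
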